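import Mathlib

set_option autoImplicit false

/-!
# Tripartite graphs of minimum degree `n + t` with fewer than `4 t ^ 3` triangles

For every `t ≥ 2` we construct, with `n = 6 t - 2 ≥ 5 t`, a balanced tripartite graph `G_3(n)` of
minimum degree at least `n + t` with at most `4 t ^ 3 - 2 (t - 1) ^ 2 < 4 t ^ 3` triangles.

Construction. `V_1 = A ∪ B` with `|A| = |B| = 3 t - 1`. The class `V_2` is split into `R`, `Q`, `P` of
sizes `t`, `2 t - 1`, `3 t - 1`, and `V_3` in the same way into `R'`, `Q'`, `P'`.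
`A` is complete to `P ∪ Q ∪ Q'`, `B` is complete to `P' ∪ Q' ∪ Q`; `R` is complete to `V_3` and `R'`
is complete to `V_2`; `P` is complete to `P'`. Finally there is a sparse bipartite graph between `A`
and `R` (and a copy of it between `B` and `R'`) in which every vertex of `R` has at least `t`
neighbours, every vertex of `A` has at least one neighbour, and which has at most `t ^ 2 + 1` edges.
The triangles are the ones formed by an edge between `A` and `R` and a vertex of `Q'`, and the
ones formed by an edge between `B` and `R'` and a vertex of `Q`.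
-/

namespace Pool.Agent.Results.MP_e2add3_co.FewerTriangles

open SimpleGraph Finset

/-- `m(n,t)`: the least number of triangles of a tripartite graph with vertex classes of size `n` and
minimum degree at least `n + t`. The vertex set is `Fin 3 × Fin n`; the first coordinate gives the
class. -/
noncomputable def m (n t : ℕ) : ℕ :=
  sInf {k : ℕ | ∃ G : SimpleGraph (Fin 3 × Fin n), (∀ u v, G.Adj u v → u.1 ≠ v.1) ∧
    (∀ v, n + t ≤ (G.neighborSet v).ncard) ∧ (G.cliqueSet 3).ncard = k}

/-- The sparse bipartite graph between `A` (indices `i < 3 t - 1`) and `R` (indices `j < t`). -/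
def rho (t i j : ℕ) : Prop :=
  (min (j * t) (2 * t - 1) ≤ i ∧ i < min (j * t) (2 * t - 1) + t) ∨ (i = 3 * t - 2 ∧ j = 0)

/-- Edges between `V_1` and `V_2`. -/
def E01 (t i j : ℕ) : Prop :=
  (i < 3 * t - 1 ∧ (t ≤ j ∨ rho t i j)) ∨ (3 * t - 1 ≤ i ∧ t ≤ j ∧ j < 3 * t - 1)

/-- Edges between `V_1` and `V_3`. -/
def E02 (t i j : ℕ) : Prop :=
  (3 * t - 1 ≤ i ∧ (t ≤ j ∨ rho t (i - (3 * t - 1)) j)) ∨ (i < 3 * t - 1 ∧ t ≤ j ∧ j < 3 * t - 1)

/-- Edges between `V_2` and `V_3`. -/
def E12 (t i j : ℕ) : Prop := i < t ∨ j < t ∨ (3 * t - 1 ≤ i ∧ 3 * t - 1 ≤ j)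

/-- The adjacency relation before symmetrisation. -/
def rel (t n : ℕ) (u v : Fin 3 × Fin n) : Prop :=
  (u.1 = 0 ∧ v.1 = 1 ∧ E01 t u.2 v.2) ∨ (u.1 = 0 ∧ v.1 = 2 ∧ E02 t u.2 v.2) ∨
    (u.1 = 1 ∧ v.1 = 2 ∧ E12 t u.2 v.2)

/-- The graph. -/
def Gt (t n : ℕ) : SimpleGraph (Fin 3 × Fin n) := SimpleGraph.fromRel (rel t n)

theorem rel_class {t n : ℕ} {u v : Fin 3 × Fin n} (h : rel t n u v) : u.1 ≠ v.1 := by
  rcases h with ⟨h1, h2, _⟩ | ⟨h1, h2, _⟩ | ⟨h1, h2, _⟩ <;> rw [h1, h2] <;> decide

theorem adj_iff {t n : ℕ} {u v : Fin 3 × Fin n} :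
    (Gt t n).Adj u v ↔ rel t n u v ∨ rel t n v u := by
  rw [Gt, SimpleGraph.fromRel_adj]
  constructor
  · exact fun h => h.2
  · intro h
    refine ⟨?_, h⟩
    rintro rfl
    rcases h with h | h <;> exact rel_class h rfl

theorem tripartite {t n : ℕ} (u v : Fin 3 × Fin n) (h : (Gt t n).Adj u v) : u.1 ≠ v.1 := by
  rw [adj_iff] at h
  rcases h with h | h
  · exact rel_class h
  · exact (rel_class h).symm

theorem card_Ico (l h n : ℕ) (hh : h ≤ n) :
    (univ.filter (fun x : Fin n => l ≤ x.val ∧ x.val < h)).card = h - l := by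
  rw [← Nat.card_Ico, ← Finset.card_map Fin.valEmbedding]
  congr 1
  ext x
  simp only [mem_map, mem_filter, mem_univ, true_and, Fin.valEmbedding_apply, mem_Ico]
  constructor
  · rintro ⟨y, hy, rfl⟩
    exact hy
  · intro hx
    exact ⟨⟨x, by omega⟩, hx, rfl⟩

/-- Lower bound on the degree from neighbours in two classes. -/
theorem deg_ge {t n : ℕ} (v : Fin 3 × Fin n) (c d : Fin 3) (hcd : c ≠ d) (X Y : Finset (Fin n))
    (hX : ∀ x ∈ X, (Gt t n).Adj v (c, x)) (hY : ∀ x ∈ Y, (Gt t n).Adj v (d, x)) (N : ℕ)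
    (hN : N ≤ X.card + Y.card) : N ≤ ((Gt t n).neighborSet v).ncard := by
  classical
  have h1 : ((X.image (fun x => (c, x)) ∪ Y.image (fun x => (d, x)) : Finset (Fin 3 × Fin n)) :
      Set (Fin 3 × Fin n)) ⊆ (Gt t n).neighborSet v := by
    intro w hw
    simp only [coe_union, coe_image, Set.mem_union, Set.mem_image, mem_coe] at hw
    rcases hw with ⟨x, hx, rfl⟩ | ⟨x, hx, rfl⟩
    · exact hX x hx
    · exact hY x hx
  have h2 := Set.ncard_le_ncard h1 (Set.toFinite _)
  rw [Set.ncard_coe_finset, Finset.card_union_of_disjoint, Finset.card_image_of_injective,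
    Finset.card_image_of_injective] at h2
  · omega
  · intro x y h
    exact (Prod.mk.injEq _ _ _ _ ▸ h).2
  · intro x y h
    exact (Prod.mk.injEq _ _ _ _ ▸ h).2
  · rw [Finset.disjoint_left]
    intro w hw hw'
    simp only [mem_image] at hw hw'
    obtain ⟨x, _, rfl⟩ := hw
    obtain ⟨y, _, hy⟩ := hw'
    rw [Prod.mk.injEq] at hy
    exact hcd hy.1.symm

/-- Every vertex of `A` has a neighbour in `R`. -/
theorem rho_left {t i : ℕ} (ht : 2 ≤ t) (hi : i < 3 * t - 1) : ∃ j, j < t ∧ rho t i j := by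
  by_cases h1 : i < t
  · exact ⟨0, by omega, Or.inl ⟨by simp, by simp [h1]⟩⟩
  · by_cases h2 : i < 2 * t
    · refine ⟨1, by omega, Or.inl ⟨?_, ?_⟩⟩
      · rw [one_mul, min_eq_left (by omega)]
        omega
      · rw [one_mul, min_eq_left (by omega)]
        omega
    · by_cases h3 : t = 2
      · subst h3
        exact ⟨0, by omega, Or.inr ⟨by omega, rfl⟩⟩
      · refine ⟨2, by omega, Or.inl ⟨?_, ?_⟩⟩
        · rw [min_eq_right (by omega)]
          omega
        · rw [min_eq_right (by omega)]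
          omega

theorem card_rho_right {t n j : ℕ} (c : ℕ) (hn : c + (3 * t - 1) ≤ n) :
    t ≤ (univ.filter (fun x : Fin n => c + min (j * t) (2 * t - 1) ≤ x.val ∧
      x.val < c + min (j * t) (2 * t - 1) + t)).card := by
  rw [card_Ico]
  · omega
  · have : min (j * t) (2 * t - 1) ≤ 2 * t - 1 := min_le_right _ _
    omega

theorem min_deg {t : ℕ} (ht : 2 ≤ t) (v : Fin 3 × Fin (6 * t - 2)) :
    6 * t - 2 + t ≤ ((Gt t (6 * t - 2)).neighborSet v).ncard := by
  classical
  obtain ⟨c, i⟩ := v
  have hi := i.2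
  have hc : c = 0 ∨ c = 1 ∨ c = 2 := by
    fin_cases c <;> simp
  rcases hc with rfl | rfl | rfl
  · -- vertex of `V_1`
    by_cases hA : i.val < 3 * t - 1
    · obtain ⟨j, hj, hr⟩ := rho_left ht hA
      apply deg_ge (0, i) 1 2 (by decide)
        (insert (⟨j, by omega⟩ : Fin (6 * t - 2))
          (univ.filter (fun x : Fin (6 * t - 2) => t ≤ x.val ∧ x.val < 6 * t - 2)))
        (univ.filter (fun x : Fin (6 * t - 2) => t ≤ x.val ∧ x.val < 3 * t - 1))
      · intro x hx
        rw [adj_iff]
        left; left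
        refine ⟨rfl, rfl, Or.inl ⟨hA, ?_⟩⟩
        rw [mem_insert] at hx
        rcases hx with rfl | hx
        · exact Or.inr hr
        · simp only [mem_filter, mem_univ, true_and] at hx
          exact Or.inl hx.1
      · intro x hx
        rw [adj_iff]
        left; right; left
        simp only [mem_filter, mem_univ, true_and] at hx
        exact ⟨rfl, rfl, Or.inr ⟨hA, hx.1, hx.2⟩⟩
      · rw [Finset.card_insert_of_notMem, card_Ico, card_Ico]
        · omega
        · omega
        · omega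
        · simp only [mem_filter, mem_univ, true_and]
          omega
    · obtain ⟨j, hj, hr⟩ := rho_left (t := t) (i := i.val - (3 * t - 1)) ht (by omega)
      apply deg_ge (0, i) 2 1 (by decide)
        (insert (⟨j, by omega⟩ : Fin (6 * t - 2))
          (univ.filter (fun x : Fin (6 * t - 2) => t ≤ x.val ∧ x.val < 6 * t - 2)))
        (univ.filter (fun x : Fin (6 * t - 2) => t ≤ x.val ∧ x.val < 3 * t - 1))
      · intro x hx
        rw [adj_iff]
        left; right; left
        refine ⟨rfl, rfl, Or.inl ⟨by change 3 * t - 1 ≤ i.val; omega, ?_⟩⟩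
        rw [mem_insert] at hx
        rcases hx with rfl | hx
        · exact Or.inr hr
        · simp only [mem_filter, mem_univ, true_and] at hx
          exact Or.inl hx.1
      · intro x hx
        rw [adj_iff]
        left; left
        simp only [mem_filter, mem_univ, true_and] at hx
        exact ⟨rfl, rfl, Or.inr ⟨by change 3 * t - 1 ≤ i.val; omega, hx.1, hx.2⟩⟩
      · rw [Finset.card_insert_of_notMem, card_Ico, card_Ico]
        · omega
        · omega
        · omega
        · simp only [mem_filter, mem_univ, true_and]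
          omega
  · -- vertex of `V_2`
    by_cases hR : i.val < t
    · apply deg_ge (1, i) 0 2 (by decide)
        (univ.filter (fun x : Fin (6 * t - 2) => 0 + min (i.val * t) (2 * t - 1) ≤ x.val ∧
          x.val < 0 + min (i.val * t) (2 * t - 1) + t))
        (univ.filter (fun x : Fin (6 * t - 2) => 0 ≤ x.val ∧ x.val < 6 * t - 2))
      · intro x hx
        simp only [mem_filter, mem_univ, true_and, zero_add] at hx
        rw [adj_iff]
        right; left
        have hm : min (i.val * t) (2 * t - 1) ≤ 2 * t - 1 := min_le_right _ _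
        exact ⟨rfl, rfl, Or.inl ⟨by change x.val < 3 * t - 1; omega, Or.inr (Or.inl hx)⟩⟩
      · intro x _
        rw [adj_iff]
        left; right; right
        exact ⟨rfl, rfl, Or.inl hR⟩
      · have h1 := card_rho_right (t := t) (n := 6 * t - 2) (j := i.val) 0 (by omega)
        rw [card_Ico 0 (6 * t - 2) (6 * t - 2) le_rfl]
        omega
    · by_cases hQ : i.val < 3 * t - 1
      · apply deg_ge (1, i) 0 2 (by decide)
          (univ.filter (fun x : Fin (6 * t - 2) => 0 ≤ x.val ∧ x.val < 6 * t - 2))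
          (univ.filter (fun x : Fin (6 * t - 2) => 0 ≤ x.val ∧ x.val < t))
        · intro x _
          rw [adj_iff]
          right; left
          refine ⟨rfl, rfl, ?_⟩
          by_cases hx : x.val < 3 * t - 1
          · exact Or.inl ⟨hx, Or.inl (by change t ≤ i.val; omega)⟩
          · exact Or.inr ⟨by change 3 * t - 1 ≤ x.val; omega, by change t ≤ i.val; omega, hQ⟩
        · intro x hx
          simp only [mem_filter, mem_univ, true_and] at hx
          rw [adj_iff]
          left; right; right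
          exact ⟨rfl, rfl, Or.inr (Or.inl hx.2)⟩
        · rw [card_Ico _ _ _ le_rfl, card_Ico _ _ _ (by omega)]
          omega
      · apply deg_ge (1, i) 0 2 (by decide)
          (univ.filter (fun x : Fin (6 * t - 2) => 0 ≤ x.val ∧ x.val < 3 * t - 1))
          (univ.filter (fun x : Fin (6 * t - 2) => 0 ≤ x.val ∧ x.val < t) ∪
            univ.filter (fun x : Fin (6 * t - 2) => 3 * t - 1 ≤ x.val ∧ x.val < 6 * t - 2))
        · intro x hx
          simp only [mem_filter, mem_univ, true_and] at hx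
          rw [adj_iff]
          right; left
          exact ⟨rfl, rfl, Or.inl ⟨hx.2, Or.inl (by change t ≤ i.val; omega)⟩⟩
        · intro x hx
          simp only [mem_filter, mem_univ, true_and, mem_union] at hx
          rw [adj_iff]
          left; right; right
          refine ⟨rfl, rfl, ?_⟩
          rcases hx with hx | hx
          · exact Or.inr (Or.inl hx.2)
          · exact Or.inr (Or.inr ⟨by change 3 * t - 1 ≤ i.val; omega, hx.1⟩)
        · rw [Finset.card_union_of_disjoint, card_Ico _ _ _ (by omega), card_Ico _ _ _ (by omega),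
            card_Ico _ _ _ le_rfl]
          · omega
          · rw [Finset.disjoint_left]
            intro x hx hx'
            simp only [mem_filter, mem_univ, true_and] at hx hx'
            omega
  · -- vertex of `V_3`
    by_cases hR : i.val < t
    · apply deg_ge (2, i) 0 1 (by decide)
        (univ.filter (fun x : Fin (6 * t - 2) => (3 * t - 1) + min (i.val * t) (2 * t - 1) ≤ x.val ∧
          x.val < (3 * t - 1) + min (i.val * t) (2 * t - 1) + t))
        (univ.filter (fun x : Fin (6 * t - 2) => 0 ≤ x.val ∧ x.val < 6 * t - 2))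
      · intro x hx
        simp only [mem_filter, mem_univ, true_and] at hx
        rw [adj_iff]
        right; right; left
        refine ⟨rfl, rfl, Or.inl ⟨by change 3 * t - 1 ≤ x.val; omega, Or.inr (Or.inl ⟨?_, ?_⟩)⟩⟩
        · change min (i.val * t) (2 * t - 1) ≤ x.val - (3 * t - 1)
          omega
        · change x.val - (3 * t - 1) < min (i.val * t) (2 * t - 1) + t
          omega
      · intro x _
        rw [adj_iff]
        right; right; right
        exact ⟨rfl, rfl, Or.inr (Or.inl hR)⟩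
      · have h1 := card_rho_right (t := t) (n := 6 * t - 2) (j := i.val) (3 * t - 1) (by omega)
        rw [card_Ico 0 (6 * t - 2) (6 * t - 2) le_rfl]
        omega
    · by_cases hQ : i.val < 3 * t - 1
      · apply deg_ge (2, i) 0 1 (by decide)
          (univ.filter (fun x : Fin (6 * t - 2) => 0 ≤ x.val ∧ x.val < 6 * t - 2))
          (univ.filter (fun x : Fin (6 * t - 2) => 0 ≤ x.val ∧ x.val < t))
        · intro x _
          rw [adj_iff]
          right; right; left
          refine ⟨rfl, rfl, ?_⟩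
          by_cases hx : x.val < 3 * t - 1
          · exact Or.inr ⟨hx, by change t ≤ i.val; omega, hQ⟩
          · exact Or.inl ⟨by change 3 * t - 1 ≤ x.val; omega, Or.inl (by change t ≤ i.val; omega)⟩
        · intro x hx
          simp only [mem_filter, mem_univ, true_and] at hx
          rw [adj_iff]
          right; right; right
          exact ⟨rfl, rfl, Or.inl hx.2⟩
        · rw [card_Ico _ _ _ le_rfl, card_Ico _ _ _ (by omega)]
          omega
      · apply deg_ge (2, i) 0 1 (by decide)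
          (univ.filter (fun x : Fin (6 * t - 2) => 3 * t - 1 ≤ x.val ∧ x.val < 6 * t - 2))
          (univ.filter (fun x : Fin (6 * t - 2) => 0 ≤ x.val ∧ x.val < t) ∪
            univ.filter (fun x : Fin (6 * t - 2) => 3 * t - 1 ≤ x.val ∧ x.val < 6 * t - 2))
        · intro x hx
          simp only [mem_filter, mem_univ, true_and] at hx
          rw [adj_iff]
          right; right; left
          exact ⟨rfl, rfl, Or.inl ⟨hx.1, Or.inl (by change t ≤ i.val; omega)⟩⟩
        · intro x hx
          simp only [mem_filter, mem_univ, true_and, mem_union] at hx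
          rw [adj_iff]
          right; right; right
          refine ⟨rfl, rfl, ?_⟩
          rcases hx with hx | hx
          · exact Or.inl hx.2
          · exact Or.inr (Or.inr ⟨hx.1, by change 3 * t - 1 ≤ i.val; omega⟩)
        · rw [Finset.card_union_of_disjoint, card_Ico _ _ _ le_rfl, card_Ico _ _ _ (by omega)]
          · omega
          · rw [Finset.disjoint_left]
            intro x hx hx'
            simp only [mem_filter, mem_univ, true_and] at hx hx'
            omega

/-! ### Triangles -/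

/-- The edges of the sparse bipartite graph. -/
def edges (t : ℕ) : Finset (ℕ × ℕ) :=
  ((range t) ×ˢ (range t)).image (fun p => (min (p.1 * t) (2 * t - 1) + p.2, p.1)) ∪
    {(3 * t - 2, 0)}

theorem card_edges (t : ℕ) : (edges t).card ≤ t * t + 1 := by
  unfold edges
  refine le_trans (Finset.card_union_le _ _) ?_
  rw [Finset.card_singleton]
  have h1 := Finset.card_image_le (s := (range t) ×ˢ (range t))
    (f := fun p : ℕ × ℕ => (min (p.1 * t) (2 * t - 1) + p.2, p.1))
  rw [Finset.card_product, Finset.card_range] at h1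
  omega

theorem rho_mem {t i j : ℕ} (hj : j < t) (h : rho t i j) : (i, j) ∈ edges t := by
  unfold edges
  rw [mem_union, mem_image, mem_singleton]
  rcases h with ⟨h1, h2⟩ | ⟨h1, h2⟩
  · left
    refine ⟨(j, i - min (j * t) (2 * t - 1)), ?_, ?_⟩
    · rw [mem_product, mem_range, mem_range]
      exact ⟨hj, by change i - min (j * t) (2 * t - 1) < t; omega⟩
    · rw [Prod.mk.injEq]
      exact ⟨by change min (j * t) (2 * t - 1) + (i - min (j * t) (2 * t - 1)) = i; omega, rfl⟩
  · right
    rw [h1, h2]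

/-- The triples of indices forming a triangle lie in this set. -/
def triples (t : ℕ) : Finset (ℕ × ℕ × ℕ) :=
  ((edges t) ×ˢ (Finset.Ico t (3 * t - 1))).image (fun p => (p.1.1, p.1.2, p.2)) ∪
    ((edges t) ×ˢ (Finset.Ico t (3 * t - 1))).image (fun p => (p.1.1 + (3 * t - 1), p.2, p.1.2))

theorem card_triples {t : ℕ} (ht : 2 ≤ t) : (triples t).card + 2 * (t - 1) ^ 2 ≤ 4 * t ^ 3 := by
  have h0 := card_edges t
  have h1 : ((edges t) ×ˢ (Finset.Ico t (3 * t - 1))).card = (edges t).card * (2 * t - 1) := by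
    rw [Finset.card_product, Nat.card_Ico]
    congr 1
    omega
  have h2 : (triples t).card ≤ (edges t).card * (2 * t - 1) + (edges t).card * (2 * t - 1) := by
    unfold triples
    refine le_trans (Finset.card_union_le _ _) (add_le_add ?_ ?_)
    · exact le_trans Finset.card_image_le (le_of_eq h1)
    · exact le_trans Finset.card_image_le (le_of_eq h1)
  obtain ⟨s, rfl⟩ : ∃ s, t = s + 2 := ⟨t - 2, by omega⟩
  have e1 : 2 * (s + 2) - 1 = 2 * s + 3 := by omega
  have e2 : s + 2 - 1 = s + 1 := by omega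
  rw [e1] at h2
  rw [e2]
  have h3 : (edges (s + 2)).card * (2 * s + 3) ≤ ((s + 2) * (s + 2) + 1) * (2 * s + 3) :=
    Nat.mul_le_mul_right _ h0
  have h4 : 2 * (((s + 2) * (s + 2) + 1) * (2 * s + 3)) + 2 * (s + 1) ^ 2 = 4 * (s + 2) ^ 3 := by
    ring
  omega

theorem triple_mem {t i j k : ℕ} (h1 : E01 t i j) (h2 : E02 t i k)
    (h3 : E12 t j k) : (i, j, k) ∈ triples t := by
  unfold triples
  rw [mem_union, mem_image, mem_image]
  rcases h1 with ⟨ha, hb⟩ | ⟨ha, hb, hc⟩
  · -- `i ∈ A`
    rcases h2 with ⟨hd, _⟩ | ⟨_, hd, he⟩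
    · omega
    · -- `k ∈ Q'`, so `j ∈ R`
      rcases h3 with h3 | h3 | ⟨h3, h3'⟩
      · rcases hb with hb | hb
        · omega
        · left
          refine ⟨((i, j), k), ?_, rfl⟩
          rw [mem_product, mem_Ico]
          exact ⟨rho_mem h3 hb, hd, he⟩
      · omega
      · omega
  · rcases h2 with ⟨_, hd⟩ | ⟨hd, _, _⟩
    · rcases h3 with h3 | h3 | ⟨h3, h3'⟩
      · omega
      · rcases hd with hd | hd
        · omega
        · right
          refine ⟨((i - (3 * t - 1), k), j), ?_, ?_⟩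
          · rw [mem_product, mem_Ico]
            exact ⟨rho_mem h3 hd, hb, hc⟩
          · rw [Prod.mk.injEq]
            exact ⟨by change i - (3 * t - 1) + (3 * t - 1) = i; omega, rfl⟩
      · omega
    · omega

theorem adj01 {t n : ℕ} {i j : Fin n} (h : (Gt t n).Adj (0, i) (1, j)) : E01 t i j := by
  rw [adj_iff] at h
  rcases h with (⟨_, _, h⟩ | ⟨_, h, _⟩ | ⟨h, _, _⟩) | (⟨h, _, _⟩ | ⟨h, _, _⟩ | ⟨_, h, _⟩)
  · exact h
  all_goals exact absurd h (by simp)

theorem adj02 {t n : ℕ} {i j : Fin n} (h : (Gt t n).Adj (0, i) (2, j)) : E02 t i j := by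
  rw [adj_iff] at h
  rcases h with (⟨_, h, _⟩ | ⟨_, _, h⟩ | ⟨h, _, _⟩) | (⟨h, _, _⟩ | ⟨h, _, _⟩ | ⟨h, _, _⟩)
  · exact absurd h (by simp)
  · exact h
  all_goals exact absurd h (by simp)

theorem adj12 {t n : ℕ} {i j : Fin n} (h : (Gt t n).Adj (1, i) (2, j)) : E12 t i j := by
  rw [adj_iff] at h
  rcases h with (⟨h, _, _⟩ | ⟨h, _, _⟩ | ⟨_, _, h⟩) | (⟨h, _, _⟩ | ⟨h, _, _⟩ | ⟨h, _, _⟩)
  · exact absurd h (by simp)
  · exact absurd h (by simp)
  · exact h
  all_goals exact absurd h (by simp)

/-- Three pairwise adjacent vertices lie in the three classes. -/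
theorem clique_form {t n : ℕ} (a b c : Fin 3 × Fin n) (hab : (Gt t n).Adj a b)
    (hac : (Gt t n).Adj a c) (hbc : (Gt t n).Adj b c) :
    ∃ i j k : Fin n, (i.val, j.val, k.val) ∈ triples t ∧
      ({a, b, c} : Finset (Fin 3 × Fin n)) = {(0, i), (1, j), (2, k)} := by
  classical
  obtain ⟨a1, i⟩ := a
  obtain ⟨b1, j⟩ := b
  obtain ⟨c1, k⟩ := c
  have h1 : a1 ≠ b1 := tripartite _ _ hab
  have h2 : a1 ≠ c1 := tripartite _ _ hac
  have h3 : b1 ≠ c1 := tripartite _ _ hbc
  have hcases : ∀ a b c : Fin 3, a ≠ b → a ≠ c → b ≠ c →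
      (a = 0 ∧ b = 1 ∧ c = 2) ∨ (a = 0 ∧ b = 2 ∧ c = 1) ∨ (a = 1 ∧ b = 0 ∧ c = 2) ∨
      (a = 1 ∧ b = 2 ∧ c = 0) ∨ (a = 2 ∧ b = 0 ∧ c = 1) ∨ (a = 2 ∧ b = 1 ∧ c = 0) := by decide
  rcases hcases a1 b1 c1 h1 h2 h3 with ⟨rfl, rfl, rfl⟩ | ⟨rfl, rfl, rfl⟩ | ⟨rfl, rfl, rfl⟩ |
    ⟨rfl, rfl, rfl⟩ | ⟨rfl, rfl, rfl⟩ | ⟨rfl, rfl, rfl⟩
  · exact ⟨i, j, k, triple_mem (adj01 hab) (adj02 hac) (adj12 hbc), rfl⟩
  · refine ⟨i, k, j, triple_mem (adj01 hac) (adj02 hab) (adj12 hbc.symm), ?_⟩
    ext w; simp only [mem_insert, mem_singleton]; tauto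
  · refine ⟨j, i, k, triple_mem (adj01 hab.symm) (adj02 hbc) (adj12 hac), ?_⟩
    ext w; simp only [mem_insert, mem_singleton]; tauto
  · refine ⟨k, i, j, triple_mem (adj01 hac.symm) (adj02 hbc.symm) (adj12 hab), ?_⟩
    ext w; simp only [mem_insert, mem_singleton]; tauto
  · refine ⟨j, k, i, triple_mem (adj01 hbc) (adj02 hab.symm) (adj12 hac.symm), ?_⟩
    ext w; simp only [mem_insert, mem_singleton]; tauto
  · refine ⟨k, j, i, triple_mem (adj01 hbc.symm) (adj02 hac.symm) (adj12 hab.symm), ?_⟩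
    ext w; simp only [mem_insert, mem_singleton]; tauto

theorem triangles_le {t n : ℕ} : ((Gt t n).cliqueSet 3).ncard ≤ (triples t).card := by
  classical
  -- map each clique to its triple of indices
  have hex : ∀ s : (Gt t n).cliqueSet 3, ∃ p : triples t, ∃ i j k : Fin n,
      (p : ℕ × ℕ × ℕ) = (i.val, j.val, k.val) ∧
        (s : Finset (Fin 3 × Fin n)) = {(0, i), (1, j), (2, k)} := by
    rintro ⟨s, hs⟩
    rw [mem_cliqueSet_iff, is3Clique_iff] at hs
    obtain ⟨a, b, c, hab, hac, hbc, rfl⟩ := hs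
    obtain ⟨i, j, k, h1, h2⟩ := clique_form a b c hab hac hbc
    exact ⟨⟨_, h1⟩, i, j, k, rfl, h2⟩
  choose f hf using hex
  have hinj : Function.Injective f := by
    intro s s' h
    obtain ⟨i, j, k, h1, h2⟩ := hf s
    obtain ⟨i', j', k', h1', h2'⟩ := hf s'
    rw [h] at h1
    rw [h1] at h1'
    rw [Prod.mk.injEq, Prod.mk.injEq] at h1'
    obtain ⟨e1, e2, e3⟩ := h1'
    have e1' := Fin.ext e1
    have e2' := Fin.ext e2
    have e3' := Fin.ext e3
    apply Subtype.ext
    rw [h2, h2', e1', e2', e3']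
  have h1 := Nat.card_le_card_of_injective f hinj
  rw [Nat.card_coe_set_eq] at h1
  simpa using h1

/-- For every `t ≥ 2`, with `n = 6 t - 2 ≥ 5 t`, one has `m(n,t) ≤ 4 t ^ 3 - 2 (t - 1) ^ 2 < 4 t ^ 3`:
some tripartite graph with `n` vertices in each class and minimum degree at least `n + t` has at most
`4 t ^ 3 - 2 (t - 1) ^ 2` triangles. So the conjectured value `m(n,t) = 4 t ^ 3` (`n ≥ 5 t`) fails for
every `t ≥ 2`. -/
theorem result : ∀ t : ℕ, 2 ≤ t → ∃ n : ℕ, 5 * t ≤ n ∧
    (∃ G : SimpleGraph (Fin 3 × Fin n), (∀ u v, G.Adj u v → u.1 ≠ v.1) ∧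
      (∀ v, n + t ≤ (G.neighborSet v).ncard) ∧
      (G.cliqueSet 3).ncard + 2 * (t - 1) ^ 2 ≤ 4 * t ^ 3) ∧
    m n t < 4 * t ^ 3 := by
  intro t ht
  have h1 := triangles_le (t := t) (n := 6 * t - 2)
  have h2 := card_triples ht
  have h3 : 0 < 2 * (t - 1) ^ 2 := by
    have : 0 < t - 1 := by omega
    positivity
  refine ⟨6 * t - 2, by omega, ⟨Gt t (6 * t - 2), tripartite, min_deg ht, by omega⟩, ?_⟩
  refine lt_of_le_of_lt (Nat.sInf_le ⟨Gt t (6 * t - 2), tripartite, min_deg ht, rfl⟩) ?_
  omega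

end Pool.Agent.Results.MP_e2add3_co.FewerTriangles
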